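import Pool.Agent.Mg.F0c8446.Gf923d6

namespace Pool.Agent.Results.MP_0c8446_ag.AbelianGalois

open Pool.Agent.MP_0c8446_ag

universe u v w x

/-- Standard conjecture D for all varieties motivated by powers of an abelian variety whose first
cohomology has no Galois stable, algebraically isotropic subspaces with Tate determinant. -/
theorem result {k : Type u} [Field k] [IsAlgClosed k] {K : Type v} [Field K] [CharZero K]
    (W : Weil.{u, v, w} k K) {G : Type x} [Group G] [MulSemiringAction G k] (ρ : W.Gal G)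
    (A : Var k) [AddCommGroup A.pts]
    (hA : ∀ (T : Var k) (f g : Mor T A), IsMor fun t => f.1 t + g.1 t) (hAG : A.Over G)
    (hN : ρ.NoIso (W.gr A 1))
    (X : Var k) (hX : W.MotivatedBy (Pow A) X) (j : ℕ) (α : Set X.pts →₀ ℚ) (hα : IsCycle j α)
    (hnum : ∀ β, IsCycle (X.d - j) β → W.tr X (W.cycleClass α * W.cycleClass β) = 0) :
    W.cycleClass α = 0 := by
  obtain ⟨η, h1, h2, h3⟩ := W.exists_ample A
  exact gi_D ρ hAG (W.genD_ab hA h1 h2 h3 _) (fun σ => ρ.act_gr A σ 1) hN hX hα hnum

end Pool.Agent.Results.MP_0c8446_ag.AbelianGalois
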