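import Pool.Agent.Mg.F0c8446.G51d768

namespace Pool.Agent.Results.MP_0c8446_ag.ClassicalDL

open Pool.Agent.MP_0c8446_ag

universe u v w

/-- Every member of the class satisfies the hypothesis `hX` of `result`. -/
theorem motivatedBy_self {k : Type u} [Field k] {K : Type v} [Field K] (W : Weil.{u, v, w} k K)
    {𝒞 : Var k → Prop} {X : Var k} (hX : 𝒞 X) : W.MotivatedBy 𝒞 X := fun a ha => by
  obtain ⟨b, hb⟩ := not_forall.1 fun h => ha (W.poincare X a h)
  refine ⟨X, X, Mor.id X, Mor.id X, Set.univ, b, hX, X.isSub_univ, ?_⟩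
  rwa [W.cl_univ, one_mul, W.pull_id _ rfl, W.pull_id _ rfl]

/-- Standard conjecture D in characteristic `p` for all varieties motivated by products of
compactified Deligne-Lusztig varieties of general linear, unitary, symplectic and special
orthogonal groups. -/
theorem result {k : Type u} [Field k] [IsAlgClosed k] {p : ℕ} [Fact p.Prime] [CharP k p]
    {K : Type v} [Field K] [CharZero K] (W : Weil.{u, v, w} k K)
    (X : Var k) (hX : W.MotivatedBy (ClType k p) X) (j : ℕ) (α : Set X.pts →₀ ℚ)
    (hα : IsCycle j α)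
    (hnum : ∀ β, IsCycle (X.d - j) β → W.tr X (W.cycleClass α * W.cycleClass β) = 0) :
    W.cycleClass α = 0 :=
  cl_D' W hX (W.cycleClass_mem hα).1 fun _ hZ => W.tr_cycleClass hα hnum hZ

end Pool.Agent.Results.MP_0c8446_ag.ClassicalDL
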