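import Pool.Agent.Mg.F0c8446.G744904

namespace Pool.Agent.Results.MP_0c8446_ag.FermatType

open Pool.Agent.MP_0c8446_ag

universe u v w

/-- Every variety of Fermat type satisfies the hypothesis `hX` of `result`. -/
theorem motivated_of_fermatType {k : Type u} [Field k] {p : ℕ} {K : Type v} [Field K]
    (W : Weil.{u, v, w} k K) {X : Var k} (hX : FermatType k p X) : W.Motivated p X := fun a ha => by
  obtain ⟨b, hb⟩ := not_forall.1 fun h => ha (W.poincare X a h)
  refine ⟨X, X, Mor.id X, Mor.id X, Set.univ, b, hX, X.isSub_univ, ?_⟩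
  rwa [W.cl_univ, one_mul, W.pull_id _ rfl, W.pull_id _ rfl]

/-- Standard conjecture D over the algebraic closure of `F_p` for all varieties motivated by
varieties of Fermat type. -/
theorem result {k : Type u} [Field k] [IsAlgClosed k] {p : ℕ} [Fact p.Prime] [CharP k p]
    (hk : ∀ x : k, ∃ r, 0 < r ∧ x ^ p ^ r = x)
    {K : Type v} [Field K] [CharZero K] (W : Weil.{u, v, w} k K)
    (X : Var k) (hX : W.Motivated p X) (j : ℕ) (α : Set X.pts →₀ ℚ) (hα : IsCycle j α)
    (hnum : ∀ β, IsCycle (X.d - j) β → W.tr X (W.cycleClass α * W.cycleClass β) = 0) :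
    W.cycleClass α = 0 :=
  final_D' hk W hX (W.cycleClass_mem hα).1 fun _ hZ => W.tr_cycleClass hα hnum hZ

end Pool.Agent.Results.MP_0c8446_ag.FermatType
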