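import Pool.Agent.Mg.F0c8446.G1d7925

namespace Pool.Agent.Results.MP_0c8446_ag.MotiveGalois

open Pool.Agent.MP_0c8446_ag

universe u v w x

/-- Standard conjecture D for all varieties motivated by tensor powers of a self-dual motive `V`
with algebraic Künneth projectors and with no Galois stable, algebraically isotropic subspaces
with Tate determinant. -/
theorem result {k : Type u} [Field k] [IsAlgClosed k] {K : Type v} [Field K] [CharZero K]
    (W : Weil.{u, v, w} k K) {G : Type x} [Group G] [MulSemiringAction G k] (ρ : W.Gal G)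
    (A : Var k) (hAG : A.Over G) (V : Submodule K (W.H A)) (hS : W.Summand V)
    (hV : ∀ σ, ∀ a ∈ V, ρ.act A σ a ∈ V) (hN : ρ.NoIso V)
    (X : Var k) (hX : W.MotBy V X) (j : ℕ) (α : Set X.pts →₀ ℚ) (hα : IsCycle j α)
    (hnum : ∀ β, IsCycle (X.d - j) β → W.tr X (W.cycleClass α * W.cycleClass β) = 0) :
    W.cycleClass α = 0 :=
  gi_mot ρ hAG hS hV hN hX hα hnum

end Pool.Agent.Results.MP_0c8446_ag.MotiveGalois
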